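import Pool.Agent.Helper33.NS4

/-!
# Betti numbers of the Poincaré duality groups in ALL right-angled Coxeter groups of flag spheres

Let the flag complex of the finite graph `G` be a real homology manifold with the real homology of the
sphere of dimension `n - 1`, `n = 2 m + 2` (`HSph`).  The torsion-free subgroups of finite index of the
right-angled Coxeter group `W G` are Poincaré duality groups of dimension `n` (Davis; over the reals in
this generality, over the integers for flag triangulations of spheres).  For `i > n / 2` let `B i` be a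
set of vertices which contains all the vertices whose links are not in the class `AQ (2 i - 3)` of the
starting library; `f_i` is the number of the cliques with `i` elements contained in `B i`.
-/

set_option autoImplicit false

namespace Pool.Agent.Results.MP_984acc_gt.BadVertices

open Pool.Agent.W907.SG Pool.Agent.TH652.Above Pool.Agent.Y132.SI
open Pool.Agent.Helper33.NS (cliqueNum)
open Pool.Agent.Helper33.NSF

/-- (1) The reduced `ℓ²`-homology vanishes in the degrees `i` and `n - i` if `i > n / 2` and `f_i = 0`.
(2) All subgroups `H` of finite index which avoid the conjugates of finitely many nontrivial elements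
satisfy `b_i(H) ≤ (f_i / 2^i + ε) [W : H]` for all `i > n / 2`.
(3) If moreover `H` is contained in the commutator subgroup then the same bound holds for `b_{n-i}(H)`,
and `b_{n/2}(H) / [W : H]` differs from `(-1)^{n/2} χ(W)` by at most the sum of `2 f_i / 2^i` over
`i = m + 2, m + 4, ...` (upwards) or `i = m + 3, m + 5, ...` (downwards), plus `ε`. -/
theorem result (m : ℕ) (V : Type) [Fintype V] [LinearOrder V] (G : SimpleGraph V)
    (hS : HSph (2 * m + 2) G) (B : ℕ → Set V) (hB : GoodOutside G B (m + 2)) :
    (∀ i : ℕ, m + 1 < i → cliqueNum G (B i) i = 0 →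
      L2Van G i ∧ ∀ j, i + j = 2 * m + 2 → L2Van G j) ∧
    ∀ ε : ℝ, 0 < ε → ∃ E : Finset (W G), (1 : W G) ∉ E ∧
      ∀ H : Subgroup (W G), H.FiniteIndex → (∀ g ∈ E, ∀ x : W G, x * g * x⁻¹ ∉ H) →
        (∀ i : ℕ, m + 1 < i → (Module.finrank ℝ (HInv G H i) : ℝ) ≤
          ((cliqueNum G (B i) i : ℝ) / 2 ^ i + ε) * H.index) ∧
        (H ≤ commutator (W G) →
          (∀ i : ℕ, i < m + 1 → (Module.finrank ℝ (HInv G H i) : ℝ) ≤
            ((cliqueNum G (B (2 * m + 2 - i)) (2 * m + 2 - i) : ℝ) / 2 ^ (2 * m + 2 - i) + ε) *
              H.index) ∧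
          (Module.finrank ℝ (HInv G H (m + 1)) : ℝ) ≤
            ((-1) ^ (m + 1) * (chiW G : ℝ) + 2 * (badEven G B m : ℝ) + ε) * H.index ∧
          ((-1) ^ (m + 1) * (chiW G : ℝ) - 2 * (badOdd G B m : ℝ) - ε) * H.index ≤
            (Module.finrank ℝ (HInv G H (m + 1)) : ℝ)) := by
  classical
  refine ⟨fun i hi h0 => l2van_sphere G m hS B hB i hi h0, fun ε hε => ?_⟩
  obtain ⟨E, hE1, hE2⟩ := betti_le_bad G B (m + 2) (by omega) hB ε hε
  obtain ⟨E', hE1', hE2'⟩ := near_singer G m hS B hB ε hε
  refine ⟨E ∪ E', ?_, fun H hf hE => ⟨fun i hi => ?_, fun hH => ?_⟩⟩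
  · rw [Finset.mem_union]
    exact fun h => h.elim hE1 hE1'
  · exact hE2 H hf (fun g hg => hE g (Finset.mem_union_left _ hg)) i (by omega)
  · exact (hE2' H hH hf (fun g hg => hE g (Finset.mem_union_right _ hg))).2

end Pool.Agent.Results.MP_984acc_gt.BadVertices
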